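import Mathlib

/-!
# Piecewise linear functions and maps given by finitely many polyhedra
-/

set_option autoImplicit false

namespace Pool.Agent.Lib.MP_0f8bf3_al

open Set

variable {E : Type*} [NormedAddCommGroup E] [NormedSpace ℝ E]
variable {V : Type*} [AddCommGroup V] [Module ℝ V]

/-- A polyhedron: the solution set of finitely many affine inequalities. -/
def IsPoly (P : Set E) : Prop :=
  ∃ s : Set (E →ᵃ[ℝ] ℝ), s.Finite ∧ P = {x | ∀ l ∈ s, 0 ≤ l x}

theorem IsPoly.inter {P Q : Set E} (hP : IsPoly P) (hQ : IsPoly Q) : IsPoly (P ∩ Q) := by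
  obtain ⟨s, hs, rfl⟩ := hP
  obtain ⟨t, ht, rfl⟩ := hQ
  refine ⟨s ∪ t, hs.union ht, ?_⟩
  ext x
  constructor
  · rintro ⟨h1, h2⟩ l (hl | hl)
    · exact h1 l hl
    · exact h2 l hl
  · intro h
    exact ⟨fun l hl => h l (Or.inl hl), fun l hl => h l (Or.inr hl)⟩

theorem IsPoly.univ : IsPoly (Set.univ : Set E) := by
  refine ⟨∅, finite_empty, ?_⟩
  ext x
  simp

theorem IsPoly.half (l : E →ᵃ[ℝ] ℝ) : IsPoly {x : E | 0 ≤ l x} := by
  refine ⟨{l}, finite_singleton l, ?_⟩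
  ext x
  simp

theorem IsPoly.iInter {ι : Type*} [Finite ι] {P : ι → Set E} (h : ∀ i, IsPoly (P i)) :
    IsPoly (⋂ i, P i) := by
  choose s hs hP using h
  refine ⟨⋃ i, s i, finite_iUnion hs, ?_⟩
  ext x
  simp only [mem_iInter, mem_iUnion]
  constructor
  · rintro h l ⟨i, hl⟩
    have := h i
    rw [hP i] at this
    exact this l hl
  · intro h i
    rw [hP i]
    intro l hl
    exact h l ⟨i, hl⟩

theorem IsPoly.preimage {E' : Type*} [NormedAddCommGroup E'] [NormedSpace ℝ E']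
    {P : Set E'} (hP : IsPoly P) (A : E →ᵃ[ℝ] E') : IsPoly (A ⁻¹' P) := by
  obtain ⟨s, hs, rfl⟩ := hP
  refine ⟨(fun l => l.comp A) '' s, hs.image _, ?_⟩
  ext x
  constructor
  · rintro h l ⟨l', hl', rfl⟩
    exact h l' hl'
  · intro h l hl
    exact h _ ⟨l, hl, rfl⟩

/-- A bounded polyhedron is the convex hull of a finite set. -/
theorem IsPoly.exists_finset [FiniteDimensional ℝ E] {P : Set E} (hP : IsPoly P)
    (hb : Bornology.IsBounded P) : ∃ s : Finset E, P = convexHull ℝ (↑s : Set E) := by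
  obtain ⟨s, hs, rfl⟩ := hP
  set P : Set E := {x | ∀ l ∈ s, 0 ≤ l x} with hPdef
  have hclosed : IsClosed P := by
    have : P = ⋂ l ∈ s, {x : E | 0 ≤ l x} := by
      ext x; simp [hPdef]
    rw [this]
    refine isClosed_biInter fun l _ => ?_
    exact isClosed_le continuous_const (AffineMap.continuous_of_finiteDimensional l)
  have hcomp : IsCompact P := Metric.isCompact_of_isClosed_isBounded hclosed hb
  have hconv : Convex ℝ P := by
    intro x hx y hy a b ha hb hab l hl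
    have : l (a • x + b • y) = a * l x + b * l y := by
      rw [Convex.combo_affine_apply hab]; simp
    rw [this]
    have h1 := hx l hl
    have h2 := hy l hl
    positivity
  have hfin : (P.extremePoints ℝ).Finite := by
    have hinj : Set.InjOn (fun x : E => {l ∈ s | l x = 0}) (P.extremePoints ℝ) := by
      intro x hx y hy hxy
      by_contra hne
      have hxy' : ∀ l ∈ s, l x = 0 → l y = 0 := by
        intro l hl h0
        have h1 : l ∈ {l ∈ s | l x = 0} := ⟨hl, h0⟩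
        have hxy2 : {l ∈ s | l x = 0} = {l ∈ s | l y = 0} := hxy
        rw [hxy2] at h1
        exact h1.2
      -- for small ε > 0 the point x + ε (x - y) lies in P
      have hε : ∀ᶠ ε in nhdsWithin (0 : ℝ) (Set.Ioi 0), ∀ l ∈ s, 0 ≤ l (x + ε • (x - y)) := by
        rw [Filter.eventually_all_finite hs]
        intro l hl
        have hform : ∀ ε : ℝ, l (x + ε • (x - y)) = l x + ε * (l x - l y) := by
          intro ε
          have : x + ε • (x - y) = AffineMap.lineMap y x (1 + ε) := by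
            rw [AffineMap.lineMap_apply]
            simp only [vsub_eq_sub, vadd_eq_add]
            module
          rw [this, AffineMap.apply_lineMap, AffineMap.lineMap_apply]
          simp only [vsub_eq_sub, vadd_eq_add, smul_eq_mul]
          ring
        rcases eq_or_lt_of_le ((hx.1 : x ∈ P) l hl) with h0 | hpos
        · filter_upwards with ε
          rw [hform, ← h0, hxy' l hl h0.symm]
          simp
        · have hcont : Filter.Tendsto (fun ε : ℝ => l x + ε * (l x - l y))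
              (nhdsWithin (0 : ℝ) (Set.Ioi 0)) (nhds (l x + 0 * (l x - l y))) := by
            apply Filter.Tendsto.mono_left _ nhdsWithin_le_nhds
            have : Continuous (fun ε : ℝ => l x + ε * (l x - l y)) := by fun_prop
            exact this.tendsto 0
          have h3 : ∀ᶠ z in nhds (l x + 0 * (l x - l y)), (0 : ℝ) < z :=
            lt_mem_nhds (by simpa using hpos)
          filter_upwards [hcont.eventually h3] with ε hε
          rw [hform]
          exact hε.le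
      obtain ⟨ε, hεP, hε0⟩ := (hε.and self_mem_nhdsWithin).exists
      have hε0' : (0 : ℝ) < ε := hε0
      have hx1 : x + ε • (x - y) ∈ P := hεP
      have hseg : x ∈ openSegment ℝ y (x + ε • (x - y)) := by
        refine ⟨ε / (1 + ε), 1 / (1 + ε), by positivity, by positivity, by field_simp; ring, ?_⟩
        have h1 : (1 + ε) ≠ 0 := by positivity
        have : (ε / (1 + ε)) • y + (1 / (1 + ε)) • (x + ε • (x - y))
            = ((1 + ε) / (1 + ε)) • x := by
          simp only [div_eq_mul_inv]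
          module
        rw [this, div_self h1, one_smul]
      have hext := (mem_extremePoints.1 hx).2 y hy.1 (x + ε • (x - y)) hx1 hseg
      exact hne hext.1.symm
    refine Set.Finite.of_finite_image ?_ hinj
    refine (hs.finite_subsets).subset ?_
    rintro _ ⟨x, -, rfl⟩
    exact fun l hl => hl.1
  refine ⟨hfin.toFinset, ?_⟩
  rw [Set.Finite.coe_toFinset]
  have h1 := closure_convexHull_extremePoints hcomp hconv
  rw [(hfin.isClosed_convexHull (𝕜 := ℝ)).closure_eq] at h1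
  exact h1.symm

/-- Piecewise linear map: finitely many polyhedra cover the space and the map is affine on each. -/
def PL (u : E → V) : Prop :=
  ∃ T : Set (Set E × (E →ᵃ[ℝ] V)), T.Finite ∧ (∀ c ∈ T, IsPoly c.1) ∧ (∀ x, ∃ c ∈ T, x ∈ c.1) ∧
    ∀ c ∈ T, ∀ x ∈ c.1, u x = c.2 x

theorem PL.affine (A : E →ᵃ[ℝ] V) : PL (fun x => A x) :=
  ⟨{(Set.univ, A)}, finite_singleton _, by rintro _ rfl; exact IsPoly.univ,
    fun x => ⟨_, rfl, mem_univ x⟩, by rintro _ rfl x _; rfl⟩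

theorem PL.add {u v : E → V} (hu : PL u) (hv : PL v) : PL (fun x => u x + v x) := by
  obtain ⟨T, hT, h1, h2, h3⟩ := hu
  obtain ⟨T', hT', h1', h2', h3'⟩ := hv
  refine ⟨Set.image2 (fun c c' => (c.1 ∩ c'.1, c.2 + c'.2)) T T', hT.image2 _ hT', ?_, ?_, ?_⟩
  · rintro _ ⟨c, hc, c', hc', rfl⟩
    exact (h1 c hc).inter (h1' c' hc')
  · intro x
    obtain ⟨c, hc, hx⟩ := h2 x
    obtain ⟨c', hc', hx'⟩ := h2' x
    exact ⟨_, ⟨c, hc, c', hc', rfl⟩, hx, hx'⟩
  · rintro _ ⟨c, hc, c', hc', rfl⟩ x ⟨hx, hx'⟩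
    beta_reduce
    rw [h3 c hc x hx, h3' c' hc' x hx']
    rfl

theorem PL.neg {u : E → V} (hu : PL u) : PL (fun x => - u x) := by
  obtain ⟨T, hT, h1, h2, h3⟩ := hu
  refine ⟨(fun c => (c.1, -c.2)) '' T, hT.image _, ?_, ?_, ?_⟩
  · rintro _ ⟨c, hc, rfl⟩
    exact h1 c hc
  · intro x
    obtain ⟨c, hc, hx⟩ := h2 x
    exact ⟨_, ⟨c, hc, rfl⟩, hx⟩
  · rintro _ ⟨c, hc, rfl⟩ x hx
    beta_reduce
    rw [h3 c hc x hx]
    rfl

theorem PL.sub {u v : E → V} (hu : PL u) (hv : PL v) : PL (fun x => u x - v x) := by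
  have := hu.add hv.neg
  simpa [sub_eq_add_neg] using this

theorem PL.const_mul {u : E → ℝ} (hu : PL u) (c : ℝ) : PL (fun x => c * u x) := by
  obtain ⟨T, hT, h1, h2, h3⟩ := hu
  refine ⟨(fun d => (d.1, c • d.2)) '' T, hT.image _, ?_, ?_, ?_⟩
  · rintro _ ⟨d, hd, rfl⟩
    exact h1 d hd
  · intro x
    obtain ⟨d, hd, hx⟩ := h2 x
    exact ⟨_, ⟨d, hd, rfl⟩, hx⟩
  · rintro _ ⟨d, hd, rfl⟩ x hx
    beta_reduce
    rw [h3 d hd x hx]
    rfl

theorem PL.const (c : V) : PL (fun _ : E => c) := PL.affine (AffineMap.const ℝ E c)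

theorem PL.maxx {u v : E → ℝ} (hu : PL u) (hv : PL v) : PL (fun x => max (u x) (v x)) := by
  obtain ⟨T, hT, h1, h2, h3⟩ := hu
  obtain ⟨T', hT', h1', h2', h3'⟩ := hv
  refine ⟨Set.image2 (fun c c' => (c.1 ∩ c'.1 ∩ {x | 0 ≤ (c.2 - c'.2) x}, c.2)) T T' ∪
      Set.image2 (fun c c' => (c.1 ∩ c'.1 ∩ {x | 0 ≤ (c'.2 - c.2) x}, c'.2)) T T',
      (hT.image2 _ hT').union (hT.image2 _ hT'), ?_, ?_, ?_⟩
  · rintro _ (⟨c, hc, c', hc', rfl⟩ | ⟨c, hc, c', hc', rfl⟩)
    · exact ((h1 c hc).inter (h1' c' hc')).inter (IsPoly.half _)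
    · exact ((h1 c hc).inter (h1' c' hc')).inter (IsPoly.half _)
  · intro x
    obtain ⟨c, hc, hx⟩ := h2 x
    obtain ⟨c', hc', hx'⟩ := h2' x
    rcases le_total (c'.2 x) (c.2 x) with h | h
    · exact ⟨_, Or.inl ⟨c, hc, c', hc', rfl⟩, ⟨hx, hx'⟩, by simpa using h⟩
    · exact ⟨_, Or.inr ⟨c, hc, c', hc', rfl⟩, ⟨hx, hx'⟩, by simpa using h⟩
  · rintro _ (⟨c, hc, c', hc', rfl⟩ | ⟨c, hc, c', hc', rfl⟩) x ⟨⟨hx, hx'⟩, hx''⟩
    · beta_reduce
      rw [h3 c hc x hx, h3' c' hc' x hx']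
      have : c'.2 x ≤ c.2 x := by simpa using hx''
      exact max_eq_left this
    · beta_reduce
      rw [h3 c hc x hx, h3' c' hc' x hx']
      have : c.2 x ≤ c'.2 x := by simpa using hx''
      exact max_eq_right this

theorem PL.minn {u v : E → ℝ} (hu : PL u) (hv : PL v) : PL (fun x => min (u x) (v x)) := by
  have := (hu.neg.maxx hv.neg).neg
  have e : (fun x => - max (-u x) (-v x)) = fun x => min (u x) (v x) := by
    ext x
    rw [max_neg_neg, neg_neg]
  rwa [e] at this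

theorem PL.abs {u : E → ℝ} (hu : PL u) : PL (fun x => |u x|) := by
  have := hu.maxx hu.neg
  exact this

/-- A map into `Fin n → ℝ` is PL if its coordinates are. -/
theorem PL.pi {n : ℕ} {F : E → (Fin n → ℝ)} (h : ∀ i, PL (fun x => F x i)) : PL F := by
  choose T hT h1 h2 h3 using h
  have hfin : (Set.pi Set.univ T).Finite := Set.Finite.pi hT
  refine ⟨(fun c : (Fin n → Set E × (E →ᵃ[ℝ] ℝ)) =>
      ((⋂ i, (c i).1, AffineMap.pi (fun i => (c i).2)) : Set E × (E →ᵃ[ℝ] (Fin n → ℝ)))) ''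
      (Set.pi Set.univ T), hfin.image _, ?_, ?_, ?_⟩
  · rintro _ ⟨c, hc, rfl⟩
    exact IsPoly.iInter fun i => h1 i _ (hc i (mem_univ i))
  · intro x
    choose c hc hx using fun i => h2 i x
    exact ⟨_, ⟨c, fun i _ => hc i, rfl⟩, mem_iInter.2 hx⟩
  · rintro _ ⟨c, hc, rfl⟩ x hx
    ext i
    exact h3 i _ (hc i (mem_univ i)) x (mem_iInter.1 hx i)

/-- Composition of PL maps. -/
theorem PL.comp {E' : Type*} [NormedAddCommGroup E'] [NormedSpace ℝ E'] {F : E' → V} {G : E → E'}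
    (hF : PL F) (hG : PL G) : PL (fun x => F (G x)) := by
  obtain ⟨T, hT, h1, h2, h3⟩ := hF
  obtain ⟨T', hT', h1', h2', h3'⟩ := hG
  refine ⟨Set.image2 (fun c c' => (c'.1 ∩ c'.2 ⁻¹' c.1, c.2.comp c'.2)) T T', hT.image2 _ hT',
    ?_, ?_, ?_⟩
  · rintro _ ⟨c, hc, c', hc', rfl⟩
    exact (h1' c' hc').inter ((h1 c hc).preimage _)
  · intro x
    obtain ⟨c', hc', hx'⟩ := h2' x
    obtain ⟨c, hc, hx⟩ := h2 (G x)
    rw [h3' c' hc' x hx'] at hx
    exact ⟨_, ⟨c, hc, c', hc', rfl⟩, hx', hx⟩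
  · rintro _ ⟨c, hc, c', hc', rfl⟩ x ⟨hx', hx⟩
    have hx2 : c'.2 x ∈ c.1 := hx
    beta_reduce
    rw [h3' c' hc' x hx', h3 c hc _ hx2]
    rfl

/-- A coordinate function is PL. -/
theorem PL.coord {n : ℕ} (i : Fin n) : PL (fun x : Fin n → ℝ => x i) :=
  PL.affine (LinearMap.proj i : (Fin n → ℝ) →ₗ[ℝ] ℝ).toAffineMap

/-- From a PL map on `Fin n → ℝ` to finitely many polytopes covering the unit sphere. -/
theorem PL.exists_polytopes {n : ℕ} {F : (Fin n → ℝ) → (Fin n → ℝ)} (hF : PL F) :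
    ∃ m : ℕ, ∃ C : Fin m → Set (Fin n → ℝ), ∃ A : Fin m → ((Fin n → ℝ) →ᵃ[ℝ] (Fin n → ℝ)),
      (∀ j, ∃ s : Finset (Fin n → ℝ), C j = convexHull ℝ (↑s : Set (Fin n → ℝ))) ∧
      (∀ x : Metric.sphere (0 : Fin n → ℝ) 1, ∃ j, (↑x : Fin n → ℝ) ∈ C j) ∧
      (∀ j, ∀ x ∈ C j, F x = A j x) := by
  obtain ⟨T, hT, h1, h2, h3⟩ := hF
  have hcube : IsPoly (Metric.closedBall (0 : Fin n → ℝ) 1) := by
    let pr : Fin n → ((Fin n → ℝ) →ᵃ[ℝ] ℝ) := fun i =>
      (LinearMap.proj i : (Fin n → ℝ) →ₗ[ℝ] ℝ).toAffineMap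
    let on : (Fin n → ℝ) →ᵃ[ℝ] ℝ := AffineMap.const ℝ (Fin n → ℝ) (1 : ℝ)
    have e1 : ∀ i x, (pr i + on) x = x i + 1 := fun i x => rfl
    have e2 : ∀ i x, (-pr i + on) x = -x i + 1 := fun i x => rfl
    have : Metric.closedBall (0 : Fin n → ℝ) 1 =
        ⋂ i : Fin n, ({x | 0 ≤ (pr i + on) x} ∩ {x | 0 ≤ (-pr i + on) x}) := by
      ext x
      simp only [mem_closedBall_zero_iff, pi_norm_le_iff_of_nonneg zero_le_one, Real.norm_eq_abs,
        abs_le, mem_iInter, mem_inter_iff, mem_ofPred_eq, e1, e2]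
      refine forall_congr' fun i => ?_
      constructor
      · rintro ⟨ha, hb⟩
        exact ⟨by linarith, by linarith⟩
      · rintro ⟨ha, hb⟩
        exact ⟨by linarith, by linarith⟩
    rw [this]
    exact IsPoly.iInter fun i => (IsPoly.half _).inter (IsPoly.half _)
  have : Finite T := hT
  obtain ⟨m, ⟨e⟩⟩ := Finite.exists_equiv_fin T
  refine ⟨m, fun j => (e.symm j).1.1 ∩ Metric.closedBall 0 1, fun j => (e.symm j).1.2, ?_, ?_, ?_⟩
  · intro j
    exact ((h1 _ (e.symm j).2).inter hcube).exists_finset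
      (Metric.isBounded_closedBall.subset inter_subset_right)
  · intro x
    obtain ⟨c, hc, hx⟩ := h2 x
    refine ⟨e ⟨c, hc⟩, ?_, ?_⟩
    · rw [Equiv.symm_apply_apply]
      exact hx
    · exact Metric.sphere_subset_closedBall x.2
  · intro j x hx
    exact h3 _ (e.symm j).2 x hx.1

end Pool.Agent.Lib.MP_0f8bf3_al
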