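import Pool.Agent.Lib.MP_0f8bf3_al.Circle
import Pool.Agent.Lib.MP_0f8bf3_al.PL

/-!
# The action of `Z wr Z^4` on the boundary of the 4-cube
-/

set_option autoImplicit false

namespace Pool.Agent.Lib.MP_0f8bf3_al

open Set

noncomputable section

/-- Ambient space. -/
abbrev E4 : Type := Fin 4 → ℝ

/-- First pair of coordinates. -/
def fstP (x : E4) : ℝ × ℝ := (x 0, x 1)
/-- Second pair of coordinates. -/
def sndP (x : E4) : ℝ × ℝ := (x 2, x 3)
/-- Recombine two pairs. -/
def mk4 (p q : ℝ × ℝ) : E4 := ![p.1, p.2, q.1, q.2]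

@[simp] theorem fstP_mk4 (p q : ℝ × ℝ) : fstP (mk4 p q) = p := by
  simp [fstP, mk4]

@[simp] theorem sndP_mk4 (p q : ℝ × ℝ) : sndP (mk4 p q) = q := by
  simp [sndP, mk4]

@[simp] theorem mk4_fstP_sndP (x : E4) : mk4 (fstP x) (sndP x) = x := by
  ext i
  fin_cases i <;> simp [fstP, sndP, mk4]

theorem norm_mk4 (p q : ℝ × ℝ) : ‖mk4 p q‖ = max ‖p‖ ‖q‖ := by
  apply le_antisymm
  · rw [pi_norm_le_iff_of_nonneg (le_max_of_le_left (norm_nonneg _))]
    intro i
    fin_cases i
    · exact le_max_of_le_left (norm_fst_le p)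
    · exact le_max_of_le_left (norm_snd_le p)
    · exact le_max_of_le_right (norm_fst_le q)
    · exact le_max_of_le_right (norm_snd_le q)
  · apply max_le
    · rw [Prod.norm_def]
      exact max_le (norm_le_pi_norm (mk4 p q) 0) (norm_le_pi_norm (mk4 p q) 1)
    · rw [Prod.norm_def]
      exact max_le (norm_le_pi_norm (mk4 p q) 2) (norm_le_pi_norm (mk4 p q) 3)

/-- The angle displacement of the basic shear. -/
def kap (p : ℝ × ℝ) (ρ : ℝ) : ℝ := min (2 * ρ) (1 + p.1) / ρ

variable (α : Fin 4 → ℝ)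

/-- The linear form `w ↦ α · w`. -/
def lin (w : Fin 4 → ℤ) : ℝ := ∑ i, α i * (w i : ℝ)

theorem lin_add (v w : Fin 4 → ℤ) : lin α (v + w) = lin α v + lin α w := by
  unfold lin
  rw [← Finset.sum_add_distrib]
  refine Finset.sum_congr rfl fun i _ => ?_
  simp only [Pi.add_apply]
  push_cast
  ring

theorem lin_zero : lin α 0 = 0 := by simp [lin]

theorem lin_sub (v w : Fin 4 → ℤ) : lin α (v - w) = lin α v - lin α w := by
  have := lin_add α (v - w) w
  rw [sub_add_cancel] at this
  linarith

/-- Total angle displacement. -/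
def tot (f : (Fin 4 → ℤ) → ℤ) (p : ℝ × ℝ) (ρ : ℝ) : ℝ :=
  ∑ᶠ w, (f w : ℝ) * kap (rot (-lin α w) p) ρ

/-- The action on the ambient space. -/
def act (v : Fin 4 → ℤ) (f : (Fin 4 → ℤ) → ℤ) (x : E4) : E4 :=
  mk4 (rot (lin α v) (fstP x)) (rot (tot α f (fstP x) ‖sndP x‖) (sndP x))

theorem norm_act (v : Fin 4 → ℤ) (f : (Fin 4 → ℤ) → ℤ) (x : E4) : ‖act α v f x‖ = ‖x‖ := by
  unfold act
  rw [norm_mk4, norm_rot, norm_rot, ← norm_mk4, mk4_fstP_sndP]

theorem tot_add {f g : (Fin 4 → ℤ) → ℤ} (hf : f.support.Finite) (hg : g.support.Finite)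
    (p : ℝ × ℝ) (ρ : ℝ) : tot α (f + g) p ρ = tot α f p ρ + tot α g p ρ := by
  unfold tot
  rw [← finsum_add_distrib]
  · refine finsum_congr fun w => ?_
    simp only [Pi.add_apply]
    push_cast
    ring
  · refine hf.subset fun w hw => ?_
    simp only [Function.mem_support] at hw ⊢
    intro h0
    apply hw
    rw [h0]; simp
  · refine hg.subset fun w hw => ?_
    simp only [Function.mem_support] at hw ⊢
    intro h0
    apply hw
    rw [h0]; simp

theorem tot_shift (g : (Fin 4 → ℤ) → ℤ) (v : Fin 4 → ℤ) (p : ℝ × ℝ) (ρ : ℝ) :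
    tot α (fun w => g (w + v)) p ρ = tot α g (rot (lin α v) p) ρ := by
  unfold tot
  rw [← finsum_comp_equiv (Equiv.addRight v)
    (f := fun w => (g w : ℝ) * kap (rot (-lin α w) (rot (lin α v) p)) ρ)]
  refine finsum_congr fun w => ?_
  simp only [Equiv.coe_addRight]
  rw [rot_rot, lin_add]
  congr 3
  ring

theorem act_act {f g : (Fin 4 → ℤ) → ℤ} (hf : f.support.Finite) (hg : g.support.Finite)
    (v u : Fin 4 → ℤ) (x : E4) :
    act α u g (act α v f x) = act α (v + u) (f + fun w => g (w + v)) x := by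
  have hg' : (fun w => g (w + v)).support.Finite := by
    have : (fun w => g (w + v)).support = (Equiv.addRight v) ⁻¹' g.support := rfl
    rw [this]
    exact hg.preimage (Equiv.injective _).injOn
  unfold act
  rw [fstP_mk4, sndP_mk4, norm_rot, rot_rot, rot_rot, lin_add, tot_add α hf hg', tot_shift]

theorem tot_zero (p : ℝ × ℝ) (ρ : ℝ) : tot α 0 p ρ = 0 := by
  unfold tot
  simp

theorem act_zero (x : E4) : act α 0 0 x = x := by
  unfold act
  rw [tot_zero, lin_zero, rot_zero, rot_zero, mk4_fstP_sndP]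

/-! ### The wreath product as a permutation group -/

/-- Permutations of the special form `(w,z) ↦ (w+v, z+f w)` with `f` finitely supported. -/
structure Rep (g : Equiv.Perm ((Fin 4 → ℤ) × ℤ)) : Type where
  /-- translation part -/
  v : Fin 4 → ℤ
  /-- shear part -/
  f : (Fin 4 → ℤ) → ℤ
  fin : f.support.Finite
  eq : ∀ w z, g (w, z) = (w + v, z + f w)

theorem Rep.v_unique {g : Equiv.Perm ((Fin 4 → ℤ) × ℤ)} (r s : Rep g) : r.v = s.v := by
  have h := (r.eq 0 0).symm.trans (s.eq 0 0)
  have := congrArg Prod.fst h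
  simpa using this

theorem Rep.f_unique {g : Equiv.Perm ((Fin 4 → ℤ) × ℤ)} (r s : Rep g) : r.f = s.f := by
  ext w
  have h := (r.eq w 0).symm.trans (s.eq w 0)
  have := congrArg Prod.snd h
  simpa using this

/-- Representation of the identity. -/
def Rep.one : Rep 1 where
  v := 0
  f := 0
  fin := by simp
  eq := by intro w z; simp

/-- Representation of a product. -/
def Rep.mul {g h : Equiv.Perm ((Fin 4 → ℤ) × ℤ)} (r : Rep g) (s : Rep h) : Rep (g * h) where
  v := s.v + r.v
  f := s.f + fun w => r.f (w + s.v)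
  fin := by
    have h1 : (fun w => r.f (w + s.v)).support.Finite := by
      have : (fun w => r.f (w + s.v)).support = (Equiv.addRight s.v) ⁻¹' r.f.support := rfl
      rw [this]
      exact r.fin.preimage (Equiv.injective _).injOn
    exact (s.fin.union h1).subset (Function.support_add _ _)
  eq := by
    intro w z
    rw [Equiv.Perm.mul_apply, s.eq, r.eq]
    simp only [Pi.add_apply, Prod.mk.injEq]
    constructor
    · rw [add_assoc]
    · rw [add_assoc]

/-- Representation of an inverse. -/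
def Rep.inv {g : Equiv.Perm ((Fin 4 → ℤ) × ℤ)} (r : Rep g) : Rep g⁻¹ where
  v := -r.v
  f := fun w => - r.f (w - r.v)
  fin := by
    have : (fun w => - r.f (w - r.v)).support = (Equiv.subRight r.v) ⁻¹' r.f.support := by
      ext w; simp
    rw [this]
    exact r.fin.preimage (Equiv.injective _).injOn
  eq := by
    intro w z
    rw [Equiv.Perm.inv_eq_iff_eq]
    rw [r.eq]
    simp [sub_eq_add_neg]

/-- The permutation of the sphere attached to a representation. -/
def Rep.perm {g : Equiv.Perm ((Fin 4 → ℤ) × ℤ)} (r : Rep g) :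
    Equiv.Perm (Metric.sphere (0 : E4) 1) where
  toFun x := ⟨act α r.v r.f x, by
    rw [mem_sphere_zero_iff_norm, norm_act]; exact mem_sphere_zero_iff_norm.1 x.2⟩
  invFun x := ⟨act α r.inv.v r.inv.f x, by
    rw [mem_sphere_zero_iff_norm, norm_act]; exact mem_sphere_zero_iff_norm.1 x.2⟩
  left_inv := by
    intro x
    apply Subtype.ext
    simp only
    rw [act_act α r.fin r.inv.fin]
    have h1 : r.v + r.inv.v = 0 := by simp [Rep.inv]
    have h2 : (r.f + fun w => r.inv.f (w + r.v)) = 0 := by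
      ext w; simp [Rep.inv]
    rw [h1, h2, act_zero]
  right_inv := by
    intro x
    apply Subtype.ext
    simp only
    rw [act_act α r.inv.fin r.fin]
    have h1 : r.inv.v + r.v = 0 := by simp [Rep.inv]
    have h2 : (r.inv.f + fun w => r.f (w + r.inv.v)) = 0 := by
      ext w; simp [Rep.inv, sub_eq_add_neg]
    rw [h1, h2, act_zero]

theorem Rep.perm_apply {g : Equiv.Perm ((Fin 4 → ℤ) × ℤ)} (r : Rep g)
    (x : Metric.sphere (0 : E4) 1) : ((r.perm α x : Metric.sphere (0 : E4) 1) : E4)
      = act α r.v r.f x := rfl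

theorem Rep.perm_unique {g : Equiv.Perm ((Fin 4 → ℤ) × ℤ)} (r s : Rep g) :
    r.perm α = s.perm α := by
  ext x : 2
  rw [Rep.perm_apply, Rep.perm_apply, r.v_unique s, r.f_unique s]

theorem Rep.perm_mul {g h : Equiv.Perm ((Fin 4 → ℤ) × ℤ)} (r : Rep g) (s : Rep h) :
    (r.mul s).perm α = r.perm α * s.perm α := by
  ext x : 2
  rw [Rep.perm_apply, Equiv.Perm.mul_apply, Rep.perm_apply, Rep.perm_apply,
    act_act α s.fin r.fin]
  rfl

/-- The basic shear generator. -/
def genS : Equiv.Perm ((Fin 4 → ℤ) × ℤ) :=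
  Equiv.prodShear (Equiv.refl (Fin 4 → ℤ))
    (fun w => if w = 0 then Equiv.addRight (1 : ℤ) else Equiv.refl ℤ)

/-- The translation generators. -/
def genT (i : Fin 4) : Equiv.Perm ((Fin 4 → ℤ) × ℤ) :=
  Equiv.prodCongr (Equiv.addRight (Pi.single i (1 : ℤ) : Fin 4 → ℤ)) (Equiv.refl ℤ)

/-- Representation of the shear generator. -/
def repS : Rep genS where
  v := 0
  f := fun w => if w = 0 then 1 else 0
  fin := by
    refine (Set.finite_singleton (0 : Fin 4 → ℤ)).subset fun w hw => ?_
    by_contra hne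
    exact hw (if_neg hne)
  eq := by
    intro w z
    unfold genS
    rw [Equiv.prodShear_apply]
    by_cases h : w = 0
    · simp [h]
    · simp [h]

/-- Representation of the translation generators. -/
def repT (i : Fin 4) : Rep (genT i) where
  v := Pi.single i 1
  f := 0
  fin := by simp
  eq := by
    intro w z
    unfold genT
    simp

/-- The wreath product. -/
abbrev W : Subgroup (Equiv.Perm ((Fin 4 → ℤ) × ℤ)) :=
  Subgroup.closure (insert genS (Set.range genT))

theorem nonempty_rep (g : W) : Nonempty (Rep g.1) := by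
  obtain ⟨g, hg⟩ := g
  induction hg using Subgroup.closure_induction with
  | mem x hx =>
    rcases hx with rfl | ⟨i, rfl⟩
    · exact ⟨repS⟩
    · exact ⟨repT i⟩
  | one => exact ⟨Rep.one⟩
  | mul x y _ _ hx hy => exact ⟨hx.some.mul hy.some⟩
  | inv x _ hx => exact ⟨hx.some.inv⟩

/-- The homomorphism to permutations of the sphere. -/
def psi : W →* Equiv.Perm (Metric.sphere (0 : E4) 1) where
  toFun g := (nonempty_rep g).some.perm α
  map_one' := by
    rw [Rep.perm_unique α _ (Rep.one : Rep ((1 : W) : Equiv.Perm ((Fin 4 → ℤ) × ℤ)))]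
    ext x : 2
    rw [Rep.perm_apply]
    exact act_zero α _
  map_mul' g h := by
    rw [← Rep.perm_mul]
    exact Rep.perm_unique α _ _

theorem psi_eq (g : W) (r : Rep g.1) : psi α g = r.perm α := Rep.perm_unique α _ _

/-! ### Injectivity -/

variable {α}

theorem kap_gam (x : ℝ) : kap (gam x) 1 = 1 + cw x := by
  unfold kap
  have h : (gam x).1 = cw x := rfl
  rw [h, div_one, mul_one]
  exact min_eq_right (by linarith [cw_le_one x])

theorem psi_injective (hα : ∀ w : Fin 4 → ℤ, (∃ m : ℤ, lin α w = m) → w = 0) :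
    Function.Injective (psi α) := by
  rw [injective_iff_map_eq_one]
  intro g hg
  obtain ⟨r⟩ := nonempty_rep g
  rw [psi_eq α g r] at hg
  -- evaluate at the points of the torus
  have hpt : ∀ x : ℝ, gam (x + lin α r.v) = gam x ∧
      gam (0 + ∑ᶠ w, (r.f w : ℝ) * (1 + cw (x - lin α w))) = gam 0 := by
    intro x
    have hx : mk4 (gam x) (gam 0) ∈ Metric.sphere (0 : E4) 1 := by
      rw [mem_sphere_zero_iff_norm, norm_mk4, norm_gam, norm_gam, max_self]
    have h1 : r.perm α ⟨_, hx⟩ = ⟨_, hx⟩ := by rw [hg]; rfl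
    have h2 := congrArg Subtype.val h1
    rw [Rep.perm_apply] at h2
    simp only [act, fstP_mk4, sndP_mk4, norm_gam, rot_gam] at h2
    have h3 := congrArg fstP h2
    have h4 := congrArg sndP h2
    rw [fstP_mk4, fstP_mk4] at h3
    rw [sndP_mk4, sndP_mk4] at h4
    refine ⟨h3, ?_⟩
    have h5 : tot α r.f (gam x) 1 = ∑ᶠ w, (r.f w : ℝ) * (1 + cw (x - lin α w)) := by
      unfold tot
      refine finsum_congr fun w => ?_
      rw [rot_gam, kap_gam, sub_eq_add_neg]
    rw [← h5]
    exact h4
  have hv : r.v = 0 := by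
    obtain ⟨k, hk⟩ := gam_inj (hpt 0).1
    apply hα
    exact ⟨8 * k, by push_cast; linarith⟩
  set H : ℝ → ℝ := fun x => ∑ᶠ w, (r.f w : ℝ) * (1 + cw (x - lin α w)) with hH
  have hHint : ∀ x, ∃ k : ℤ, H x = 8 * k := by
    intro x
    obtain ⟨k, hk⟩ := gam_inj (hpt x).2
    exact ⟨k, by linarith⟩
  have hsum : ∀ x, H x = ∑ w ∈ r.fin.toFinset, (r.f w : ℝ) * (1 + cw (x - lin α w)) := by
    intro x
    rw [hH]
    apply finsum_eq_sum_of_support_subset
    intro w hw
    simp only [Function.mem_support] at hw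
    simp only [Set.Finite.coe_toFinset, Function.mem_support]
    intro h0
    apply hw
    rw [h0]; simp
  have hf : r.f = 0 := by
    by_contra hne
    obtain ⟨w₀, hw₀⟩ := Function.ne_iff.1 hne
    simp only [Pi.zero_apply] at hw₀
    set y : ℝ := 1 + lin α w₀ with hy
    have hev1 : ∀ᶠ t in nhdsWithin (0 : ℝ) (Set.Ioi 0), ∀ w ∈ r.fin.toFinset, w ≠ w₀ →
        cw (y - lin α w + t) + cw (y - lin α w - t) - 2 * cw (y - lin α w) = 0 := by
      rw [Filter.eventually_all_finset]
      intro w _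
      by_cases hww : w = w₀
      · filter_upwards with t h; exact absurd hww h
      · have hz : ∀ m : ℤ, y - lin α w ≠ 2 * m + 1 := by
          intro m hm
          apply hww
          have h1 : w₀ - w = 0 := by
            apply hα
            refine ⟨2 * m, ?_⟩
            rw [lin_sub]; push_cast; linarith
          exact (sub_eq_zero.1 h1).symm
        filter_upwards [cw_locally_affine hz] with t ht _
        exact ht
    have hev2 : ∀ᶠ t in nhdsWithin (0 : ℝ) (Set.Ioi 0), t ≤ 2 ∧ |t * (r.f w₀ : ℝ)| < 8 := by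
      have hcont : Continuous fun t : ℝ => |t * (r.f w₀ : ℝ)| := by fun_prop
      have h1 : ∀ᶠ t in nhds (0 : ℝ), |t * (r.f w₀ : ℝ)| < 8 := by
        have := hcont.tendsto 0
        simp only [zero_mul, abs_zero] at this
        exact this.eventually (gt_mem_nhds (by norm_num))
      have h2 : ∀ᶠ t in nhds (0 : ℝ), t ≤ 2 := by
        filter_upwards [gt_mem_nhds (show (0 : ℝ) < 2 by norm_num)] with t ht
        exact ht.le
      exact (h2.and h1).filter_mono nhdsWithin_le_nhds
    obtain ⟨t, ⟨h1, h2, h3⟩, h0⟩ := ((hev1.and hev2).and self_mem_nhdsWithin).exists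
    have h0' : (0 : ℝ) < t := h0
    have hdiff : H (y + t) + H (y - t) - 2 * H y = -(t * (r.f w₀ : ℝ)) := by
      rw [hsum, hsum, hsum]
      have : ∑ w ∈ r.fin.toFinset, (r.f w : ℝ) * (1 + cw (y + t - lin α w))
          + ∑ w ∈ r.fin.toFinset, (r.f w : ℝ) * (1 + cw (y - t - lin α w))
          - 2 * ∑ w ∈ r.fin.toFinset, (r.f w : ℝ) * (1 + cw (y - lin α w))
          = ∑ w ∈ r.fin.toFinset, (r.f w : ℝ) *
            (cw (y - lin α w + t) + cw (y - lin α w - t) - 2 * cw (y - lin α w)) := by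
        rw [Finset.mul_sum, ← Finset.sum_add_distrib, ← Finset.sum_sub_distrib]
        refine Finset.sum_congr rfl fun w _ => ?_
        rw [show y + t - lin α w = y - lin α w + t by ring,
          show y - t - lin α w = y - lin α w - t by ring]
        ring
      rw [this, Finset.sum_eq_single w₀]
      · have : y - lin α w₀ = 1 := by rw [hy]; ring
        rw [this, cw_break h0'.le h2]
        ring
      · intro w hw hww
        rw [h1 w hw hww, mul_zero]
      · intro hw
        exact absurd (by simpa using hw₀) hw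
    obtain ⟨k1, hk1⟩ := hHint (y + t)
    obtain ⟨k2, hk2⟩ := hHint (y - t)
    obtain ⟨k3, hk3⟩ := hHint y
    rw [hk1, hk2, hk3] at hdiff
    have hk : t * (r.f w₀ : ℝ) = 8 * ((2 * k3 - k1 - k2 : ℤ) : ℝ) := by push_cast; linarith
    rw [hk, abs_mul] at h3
    have h4 : |((2 * k3 - k1 - k2 : ℤ) : ℝ)| < 1 := by
      have : |(8 : ℝ)| = 8 := by norm_num
      rw [this] at h3
      linarith
    have h5 : (2 * k3 - k1 - k2 : ℤ) = 0 := by
      rw [← Int.cast_abs] at h4
      have : |2 * k3 - k1 - k2| < 1 := by exact_mod_cast h4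
      exact Int.abs_lt_one_iff.1 this
    rw [h5] at hk
    simp only [Int.cast_zero, mul_zero, mul_eq_zero] at hk
    rcases hk with hk | hk
    · exact h0'.ne' hk
    · exact hw₀ (by exact_mod_cast hk)
  apply Subtype.ext
  ext wz : 1
  obtain ⟨w, z⟩ := wz
  rw [r.eq, hv, hf]
  simp

end

end Pool.Agent.Lib.MP_0f8bf3_al
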