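import Mathlib

/-!
# Rotations of the boundary of a square

`gam` parametrises the boundary of the square `[-1,1]^2` by arc length (period `8`), and
`rot t` is the rotation by arc length `t` (rescaled on concentric squares).
-/

set_option autoImplicit false

namespace Pool.Agent.Lib.MP_0f8bf3_al

noncomputable section

/-- A triangle wave of period `8` with values in `[-2,2]`. -/
def tw (a : ℝ) : ℝ := |8 * Int.fract (a / 8) - 4| - 2

/-- The truncated triangle wave. -/
def cw (a : ℝ) : ℝ := max (-1) (min 1 (tw a))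

/-- The arc length parametrisation of the boundary of the square. -/
def gam (a : ℝ) : ℝ × ℝ := (cw a, cw (a - 2))

theorem tw_add (a : ℝ) (k : ℤ) : tw (a + 8 * k) = tw a := by
  unfold tw
  have : (a + 8 * (k : ℝ)) / 8 = a / 8 + k := by ring
  rw [this, Int.fract_add_intCast]

theorem cw_add (a : ℝ) (k : ℤ) : cw (a + 8 * k) = cw a := by
  unfold cw; rw [tw_add]

theorem gam_add (a : ℝ) (k : ℤ) : gam (a + 8 * k) = gam a := by
  unfold gam
  rw [cw_add]
  have : a + 8 * (k : ℝ) - 2 = (a - 2) + 8 * k := by ring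
  rw [this, cw_add]

theorem tw_eq {a : ℝ} (h0 : 0 ≤ a) (h8 : a ≤ 8) : tw a = |a - 4| - 2 := by
  unfold tw
  rcases eq_or_lt_of_le h8 with rfl | h
  · norm_num
  · have : Int.fract (a / 8) = a / 8 := by
      rw [Int.fract_eq_self]
      constructor
      · positivity
      · rw [div_lt_one (by norm_num)]; exact h
    rw [this]
    congr 2
    ring

theorem cw_side1 {a : ℝ} (h1 : -1 ≤ a) (h2 : a ≤ 1) : cw a = 1 := by
  have key : 1 ≤ tw a := by
    rcases le_total 0 a with h | h
    · rw [tw_eq h (by linarith), abs_of_nonpos (by linarith)]; linarith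
    · have := tw_add a 1
      push_cast at this
      rw [← this, tw_eq (by linarith) (by linarith), abs_of_nonneg (by linarith)]; linarith
  unfold cw
  rw [min_eq_left key]
  norm_num

theorem cw_side2 {a : ℝ} (h1 : 1 ≤ a) (h2 : a ≤ 3) : cw a = 2 - a := by
  unfold cw
  rw [tw_eq (by linarith) (by linarith), abs_of_nonpos (by linarith)]
  rw [min_eq_right (by linarith), max_eq_right (by linarith)]; ring

theorem cw_side3 {a : ℝ} (h1 : 3 ≤ a) (h2 : a ≤ 5) : cw a = -1 := by
  unfold cw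
  rw [tw_eq (by linarith) (by linarith)]
  have : |a - 4| ≤ 1 := abs_le.2 ⟨by linarith, by linarith⟩
  rw [min_eq_right (by linarith), max_eq_left (by linarith)]

theorem cw_side4 {a : ℝ} (h1 : 5 ≤ a) (h2 : a ≤ 7) : cw a = a - 6 := by
  unfold cw
  rw [tw_eq (by linarith) (by linarith), abs_of_nonneg (by linarith)]
  rw [min_eq_right (by linarith), max_eq_right (by linarith)]; ring

theorem gam_side1 {a : ℝ} (h1 : -1 ≤ a) (h2 : a ≤ 1) : gam a = (1, a) := by
  unfold gam
  have h := cw_add (a - 2) 1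
  push_cast at h
  rw [cw_side1 h1 h2, ← h, cw_side4 (by linarith) (by linarith)]
  congr 1; ring

theorem gam_side2 {a : ℝ} (h1 : 1 ≤ a) (h2 : a ≤ 3) : gam a = (2 - a, 1) := by
  unfold gam
  rw [cw_side2 h1 h2, cw_side1 (by linarith) (by linarith)]

theorem gam_side3 {a : ℝ} (h1 : 3 ≤ a) (h2 : a ≤ 5) : gam a = (-1, 4 - a) := by
  unfold gam
  rw [cw_side3 h1 h2, cw_side2 (by linarith) (by linarith)]
  congr 1; ring

theorem gam_side4 {a : ℝ} (h1 : 5 ≤ a) (h2 : a ≤ 7) : gam a = (a - 6, -1) := by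
  unfold gam
  rw [cw_side4 h1 h2, cw_side3 (by linarith) (by linarith)]

theorem gam_side5 {a : ℝ} (h1 : 7 ≤ a) (h2 : a ≤ 9) : gam a = (1, a - 8) := by
  have h := gam_add (a - 8) 1
  push_cast at h
  rw [show a - 8 + 8 * 1 = a by ring] at h
  rw [h, gam_side1 (by linarith) (by linarith)]

/-- Every real number is a multiple of `8` away from `[-1,7)`. -/
theorem exists_red (a : ℝ) : ∃ (k : ℤ) (b : ℝ), -1 ≤ b ∧ b < 7 ∧ a = b + 8 * k := by
  refine ⟨⌊(a + 1) / 8⌋, a - 8 * ⌊(a + 1) / 8⌋, ?_, ?_, by ring⟩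
  · have := Int.floor_le ((a + 1) / 8)
    linarith
  · have := Int.lt_floor_add_one ((a + 1) / 8)
    linarith

theorem side_cases {b : ℝ} (h1 : -1 ≤ b) (h2 : b < 7) :
    (-1 ≤ b ∧ b < 1) ∨ (1 ≤ b ∧ b < 3) ∨ (3 ≤ b ∧ b < 5) ∨ (5 ≤ b ∧ b < 7) := by
  rcases lt_or_ge b 1 with h | h
  · exact Or.inl ⟨h1, h⟩
  rcases lt_or_ge b 3 with h' | h'
  · exact Or.inr (Or.inl ⟨h, h'⟩)
  rcases lt_or_ge b 5 with h'' | h''
  · exact Or.inr (Or.inr (Or.inl ⟨h', h''⟩))
  · exact Or.inr (Or.inr (Or.inr ⟨h'', h2⟩))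

theorem norm_gam (a : ℝ) : ‖gam a‖ = 1 := by
  obtain ⟨k, b, h1, h2, rfl⟩ := exists_red a
  rw [gam_add, Prod.norm_def]
  rcases side_cases h1 h2 with h | h | h | h
  · rw [gam_side1 h.1 h.2.le]
    simp only [Real.norm_eq_abs, abs_one]
    exact max_eq_left (abs_le.2 ⟨by linarith, by linarith⟩)
  · rw [gam_side2 h.1 h.2.le]
    simp only [Real.norm_eq_abs, abs_one]
    exact max_eq_right (abs_le.2 ⟨by linarith, by linarith⟩)
  · rw [gam_side3 h.1 h.2.le]
    simp only [Real.norm_eq_abs, abs_neg, abs_one]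
    exact max_eq_left (abs_le.2 ⟨by linarith, by linarith⟩)
  · rw [gam_side4 h.1 h.2.le]
    simp only [Real.norm_eq_abs, abs_neg, abs_one]
    exact max_eq_right (abs_le.2 ⟨by linarith, by linarith⟩)

theorem gam_inj_aux {a b : ℝ} (ha1 : -1 ≤ a) (ha2 : a < 7) (hb1 : -1 ≤ b) (hb2 : b < 7)
    (h : gam a = gam b) : a = b := by
  rcases side_cases ha1 ha2 with ha | ha | ha | ha <;>
  rcases side_cases hb1 hb2 with hb | hb | hb | hb
  all_goals
    first
      | rw [gam_side1 ha.1 ha.2.le] at h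
      | rw [gam_side2 ha.1 ha.2.le] at h
      | rw [gam_side3 ha.1 ha.2.le] at h
      | rw [gam_side4 ha.1 ha.2.le] at h
  all_goals
    first
      | rw [gam_side1 hb.1 hb.2.le] at h
      | rw [gam_side2 hb.1 hb.2.le] at h
      | rw [gam_side3 hb.1 hb.2.le] at h
      | rw [gam_side4 hb.1 hb.2.le] at h
  all_goals
    have e1 := congrArg Prod.fst h
    have e2 := congrArg Prod.snd h
    simp only at e1 e2
    linarith [ha.1, ha.2, hb.1, hb.2]

theorem gam_inj {a b : ℝ} (h : gam a = gam b) : ∃ k : ℤ, a = b + 8 * k := by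
  obtain ⟨k, a', h1, h2, rfl⟩ := exists_red a
  obtain ⟨l, b', h3, h4, rfl⟩ := exists_red b
  rw [gam_add, gam_add] at h
  have := gam_inj_aux h1 h2 h3 h4 h
  subst this
  exact ⟨k - l, by push_cast; ring⟩

theorem gam_surj {q : ℝ × ℝ} (h : ‖q‖ = 1) : ∃ a, q = gam a := by
  obtain ⟨x, y⟩ := q
  rw [Prod.norm_def] at h
  simp only [Real.norm_eq_abs] at h
  have hx : |x| ≤ 1 := h ▸ le_max_left _ _
  have hy : |y| ≤ 1 := h ▸ le_max_right _ _
  rw [abs_le] at hx hy
  rcases max_choice |x| |y| with h' | h'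
  · rw [h'] at h
    rcases eq_or_eq_neg_of_abs_eq h with h | h
    · exact ⟨y, by rw [gam_side1 hy.1 hy.2, h]⟩
    · exact ⟨4 - y, by rw [gam_side3 (by linarith) (by linarith), h]; congr 1; ring⟩
  · rw [h'] at h
    rcases eq_or_eq_neg_of_abs_eq h with h | h
    · exact ⟨2 - x, by rw [gam_side2 (by linarith) (by linarith), h]; congr 1; ring⟩
    · exact ⟨6 + x, by rw [gam_side4 (by linarith) (by linarith), h]; congr 1; ring⟩

theorem exists_ang (q : ℝ × ℝ) : ∃ a, q = ‖q‖ • gam a := by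
  rcases eq_or_ne q 0 with rfl | h
  · exact ⟨0, by simp⟩
  · have h0 : ‖q‖ ≠ 0 := norm_ne_zero_iff.2 h
    obtain ⟨a, ha⟩ := gam_surj (q := ‖q‖⁻¹ • q) (by
      rw [norm_smul, norm_inv, norm_norm, inv_mul_cancel₀ h0])
    exact ⟨a, by rw [← ha, smul_smul, mul_inv_cancel₀ h0, one_smul]⟩

/-- An angle (arc length parameter) of a point. -/
def ang (q : ℝ × ℝ) : ℝ := (exists_ang q).choose

theorem eq_smul_ang (q : ℝ × ℝ) : q = ‖q‖ • gam (ang q) := (exists_ang q).choose_spec

/-- Rotation by arc length `t` (on the square of radius `1`). -/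
def rot (t : ℝ) (q : ℝ × ℝ) : ℝ × ℝ := ‖q‖ • gam (ang q + t)

theorem rot_smul_gam (t a ρ : ℝ) (hρ : 0 ≤ ρ) : rot t (ρ • gam a) = ρ • gam (a + t) := by
  rcases eq_or_lt_of_le hρ with rfl | h
  · simp [rot]
  · have hn : ‖ρ • gam a‖ = ρ := by
      rw [norm_smul, norm_gam, mul_one, Real.norm_eq_abs, abs_of_nonneg hρ]
    have h1 := eq_smul_ang (ρ • gam a)
    rw [hn] at h1
    have h2 : gam a = gam (ang (ρ • gam a)) := by
      have := congrArg (fun z => ρ⁻¹ • z) h1
      simp only [smul_smul, inv_mul_cancel₀ h.ne', one_smul] at this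
      exact this
    obtain ⟨k, hk⟩ := gam_inj h2
    unfold rot
    rw [hn]
    congr 1
    have : a + t = (ang (ρ • gam a) + t) + 8 * k := by linarith
    rw [this, gam_add]

theorem norm_rot (t : ℝ) (q : ℝ × ℝ) : ‖rot t q‖ = ‖q‖ := by
  unfold rot
  rw [norm_smul, norm_gam, mul_one, norm_norm]

theorem rot_rot (s t : ℝ) (q : ℝ × ℝ) : rot s (rot t q) = rot (t + s) q := by
  conv_lhs => rw [rot.eq_def t q]
  rw [rot_smul_gam _ _ _ (norm_nonneg _)]
  unfold rot
  congr 2; ring

theorem rot_zero (q : ℝ × ℝ) : rot 0 q = q := by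
  unfold rot
  rw [add_zero, ← eq_smul_ang]

theorem rot_add_eight (t : ℝ) (k : ℤ) (q : ℝ × ℝ) : rot (t + 8 * k) q = rot t q := by
  unfold rot
  rw [← add_assoc, gam_add]

theorem rot_gam (t a : ℝ) : rot t (gam a) = gam (a + t) := by
  have := rot_smul_gam t a 1 zero_le_one
  simpa using this

/-- The max-min formula for the displacement by arc length `σ` on the square of radius `ρ`. -/
def disp (ρ σ x y : ℝ) : ℝ × ℝ :=
  (x - min (x + ρ) (max 0 (y + σ - ρ)) + min (ρ - x) (max 0 (-y + σ - ρ)),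
   y + min (ρ - y) (max 0 (x + σ - ρ)) - min (ρ + y) (max 0 (-x + σ - ρ)))

theorem disp_one {a t : ℝ} (h0 : 0 ≤ t) (h2 : t ≤ 2) :
    disp 1 t (gam a).1 (gam a).2 = gam (a + t) := by
  obtain ⟨k, b, hb1, hb2, rfl⟩ := exists_red a
  rw [gam_add, show b + 8 * (k : ℝ) + t = (b + t) + 8 * k by ring, gam_add]
  unfold disp
  rcases side_cases hb1 hb2 with h | h | h | h
  · rw [gam_side1 h.1 h.2.le]
    rcases le_total (b + t) 1 with h' | h'
    · rw [gam_side1 (by linarith) h']
      simp only [Prod.mk.injEq]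
      constructor <;> simp only [min_def, max_def] <;> split_ifs <;> linarith
    · rw [gam_side2 h' (by linarith)]
      simp only [Prod.mk.injEq]
      constructor <;> simp only [min_def, max_def] <;> split_ifs <;> linarith
  · rw [gam_side2 h.1 h.2.le]
    rcases le_total (b + t) 3 with h' | h'
    · rw [gam_side2 (by linarith) h']
      simp only [Prod.mk.injEq]
      constructor <;> simp only [min_def, max_def] <;> split_ifs <;> linarith
    · rw [gam_side3 h' (by linarith)]
      simp only [Prod.mk.injEq]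
      constructor <;> simp only [min_def, max_def] <;> split_ifs <;> linarith
  · rw [gam_side3 h.1 h.2.le]
    rcases le_total (b + t) 5 with h' | h'
    · rw [gam_side3 (by linarith) h']
      simp only [Prod.mk.injEq]
      constructor <;> simp only [min_def, max_def] <;> split_ifs <;> linarith
    · rw [gam_side4 h' (by linarith)]
      simp only [Prod.mk.injEq]
      constructor <;> simp only [min_def, max_def] <;> split_ifs <;> linarith
  · rw [gam_side4 h.1 h.2.le]
    rcases le_total (b + t) 7 with h' | h'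
    · rw [gam_side4 (by linarith) h']
      simp only [Prod.mk.injEq]
      constructor <;> simp only [min_def, max_def] <;> split_ifs <;> linarith
    · rw [gam_side5 h' (by linarith)]
      simp only [Prod.mk.injEq]
      constructor <;> simp only [min_def, max_def] <;> split_ifs <;> linarith

theorem disp_smul {ρ : ℝ} (hρ : 0 ≤ ρ) (σ x y : ℝ) :
    disp ρ (ρ * σ) (ρ * x) (ρ * y) = ρ • disp 1 σ x y := by
  unfold disp
  simp only [Prod.smul_mk, smul_eq_mul, Prod.mk.injEq]
  have e1 : ∀ u v : ℝ, min (ρ * u) (ρ * v) = ρ * min u v := fun u v => (mul_min_of_nonneg u v hρ).symm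
  have e2 : ∀ u v : ℝ, max (ρ * u) (ρ * v) = ρ * max u v := fun u v => (mul_max_of_nonneg u v hρ).symm
  have f1 : ρ * x + ρ = ρ * (x + 1) := by ring
  have f2 : ρ * y + ρ * σ - ρ = ρ * (y + σ - 1) := by ring
  have f3 : ρ - ρ * x = ρ * (1 - x) := by ring
  have f4 : -(ρ * y) + ρ * σ - ρ = ρ * (-y + σ - 1) := by ring
  have f5 : ρ - ρ * y = ρ * (1 - y) := by ring
  have f6 : ρ * x + ρ * σ - ρ = ρ * (x + σ - 1) := by ring
  have f7 : ρ + ρ * y = ρ * (1 + y) := by ring
  have f8 : -(ρ * x) + ρ * σ - ρ = ρ * (-x + σ - 1) := by ring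
  have f0 : (0 : ℝ) = ρ * 0 := by ring
  constructor
  · rw [f1, f2, f3, f4]
    conv_lhs => rw [f0, e2, e2, e1, e1]
    ring
  · rw [f5, f6, f7, f8]
    conv_lhs => rw [f0, e2, e2, e1, e1]
    ring

/-- The max-min formula computes the rotation for parameters in `[0,2]`. -/
theorem rot_eq_disp {t : ℝ} (h0 : 0 ≤ t) (h2 : t ≤ 2) (q : ℝ × ℝ) :
    rot t q = disp ‖q‖ (‖q‖ * t) q.1 q.2 := by
  have h := eq_smul_ang q
  have e1 : q.1 = ‖q‖ * (gam (ang q)).1 := congrArg Prod.fst h
  have e2 : q.2 = ‖q‖ * (gam (ang q)).2 := congrArg Prod.snd h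
  unfold rot
  rw [← disp_one h0 h2, ← disp_smul (norm_nonneg q), ← e1, ← e2]

theorem cw_le_one (a : ℝ) : cw a ≤ 1 := by
  unfold cw; exact max_le (by norm_num) (min_le_left _ _)

theorem neg_one_le_cw (a : ℝ) : -1 ≤ cw a := le_max_left _ _

/-- Away from the odd integers, `cw` is locally affine. -/
theorem cw_locally_affine {z : ℝ} (hz : ∀ m : ℤ, z ≠ 2 * m + 1) :
    ∀ᶠ t in nhdsWithin (0 : ℝ) (Set.Ioi 0), cw (z + t) + cw (z - t) - 2 * cw z = 0 := by
  obtain ⟨k, b, h1, h2, rfl⟩ := exists_red z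
  have key : ∀ᶠ t in nhdsWithin (0 : ℝ) (Set.Ioi 0), cw (b + t) + cw (b - t) - 2 * cw b = 0 := by
    have aux : ∀ l r : ℝ, l < b → b < r → ∀ᶠ t in nhdsWithin (0 : ℝ) (Set.Ioi 0),
        l ≤ b - t ∧ b + t ≤ r ∧ 0 < t := by
      intro l r hl hr
      have : Set.Ioo (0 : ℝ) (min (b - l) (r - b)) ∈ nhdsWithin (0 : ℝ) (Set.Ioi 0) :=
        Ioo_mem_nhdsGT (lt_min (by linarith) (by linarith))
      filter_upwards [this] with t ht
      have h3 := ht.2.le.trans (min_le_left _ _)
      have h4 := ht.2.le.trans (min_le_right _ _)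
      exact ⟨by linarith, by linarith, ht.1⟩
    rcases side_cases h1 h2 with h | h | h | h
    · have hne : b ≠ -1 := fun hb => hz (4 * k - 1) (by rw [hb]; push_cast; ring)
      have hlt : -1 < b := lt_of_le_of_ne h.1 (Ne.symm hne)
      filter_upwards [aux (-1) 1 hlt h.2] with t ht
      rw [cw_side1 (by linarith) ht.2.1, cw_side1 ht.1 (by linarith), cw_side1 h.1 h.2.le]
      ring
    · have hne : b ≠ 1 := fun hb => hz (4 * k) (by rw [hb]; push_cast; ring)
      have hlt : 1 < b := lt_of_le_of_ne h.1 (Ne.symm hne)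
      filter_upwards [aux 1 3 hlt h.2] with t ht
      rw [cw_side2 (by linarith) ht.2.1, cw_side2 ht.1 (by linarith), cw_side2 h.1 h.2.le]
      ring
    · have hne : b ≠ 3 := fun hb => hz (4 * k + 1) (by rw [hb]; push_cast; ring)
      have hlt : 3 < b := lt_of_le_of_ne h.1 (Ne.symm hne)
      filter_upwards [aux 3 5 hlt h.2] with t ht
      rw [cw_side3 (by linarith) ht.2.1, cw_side3 ht.1 (by linarith), cw_side3 h.1 h.2.le]
      ring
    · have hne : b ≠ 5 := fun hb => hz (4 * k + 2) (by rw [hb]; push_cast; ring)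
      have hlt : 5 < b := lt_of_le_of_ne h.1 (Ne.symm hne)
      filter_upwards [aux 5 7 hlt h.2] with t ht
      rw [cw_side4 (by linarith) ht.2.1, cw_side4 ht.1 (by linarith), cw_side4 h.1 h.2.le]
      ring
  filter_upwards [key] with t ht
  rw [show b + 8 * (k : ℝ) + t = (b + t) + 8 * k by ring,
    show b + 8 * (k : ℝ) - t = (b - t) + 8 * k by ring, cw_add, cw_add, cw_add, ht]

/-- At the point `1`, the second difference of `cw` is `-t`. -/
theorem cw_break {t : ℝ} (h0 : 0 ≤ t) (h2 : t ≤ 2) :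
    cw (1 + t) + cw (1 - t) - 2 * cw 1 = -t := by
  rw [cw_side2 (by linarith) (by linarith), cw_side1 (by linarith) (by linarith),
    cw_side1 (by norm_num) le_rfl]
  ring

end

end Pool.Agent.Lib.MP_0f8bf3_al
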