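import Mathlib

/-!
# The restricted wreath product `Z wr Z^r`
-/

set_option autoImplicit false

namespace Pool.Agent.Lib.MP_0f8bf3_al.General

/-- The elements of the restricted wreath product `ℤ ≀ ℤ^r = B ⋊ ℤ^r`: pairs `(a, v)` of a finitely
supported function `a : ℤ^r → ℤ` (an element of the base group `B`, the direct sum of copies of
`ℤ` indexed by `ℤ^r`) and a vector `v ∈ ℤ^r`. -/
@[ext] structure ZW (r : ℕ) : Type where
  /-- the element of the base group -/
  base : (Fin r → ℤ) →₀ ℤ
  /-- the element of `ℤ^r` -/
  top : Fin r → ℤ

namespace ZW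

variable {r : ℕ}

/-- The function `t ↦ b (t + v)`. -/
noncomputable def shift (v : Fin r → ℤ) (b : (Fin r → ℤ) →₀ ℤ) : (Fin r → ℤ) →₀ ℤ :=
  b.comapDomain (fun t => t + v) (add_left_injective v).injOn

theorem shift_apply (v : Fin r → ℤ) (b : (Fin r → ℤ) →₀ ℤ) (t : Fin r → ℤ) :
    shift v b t = b (t + v) := rfl

/-- The product `(a, v) (b, u) = (c, v + u)` with `c t = a t + b (t + v)`. -/
noncomputable instance : Mul (ZW r) where
  mul x y := ⟨x.base + shift x.top y.base, x.top + y.top⟩

noncomputable instance : One (ZW r) where
  one := ⟨0, 0⟩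

noncomputable instance : Inv (ZW r) where
  inv x := ⟨-shift (-x.top) x.base, -x.top⟩

theorem mul_base (x y : ZW r) : (x * y).base = x.base + shift x.top y.base := rfl
theorem mul_top (x y : ZW r) : (x * y).top = x.top + y.top := rfl
theorem one_base : (1 : ZW r).base = 0 := rfl
theorem one_top : (1 : ZW r).top = 0 := rfl
theorem inv_base (x : ZW r) : (x⁻¹).base = -shift (-x.top) x.base := rfl
theorem inv_top (x : ZW r) : (x⁻¹).top = -x.top := rfl

noncomputable instance : Group (ZW r) where
  mul_assoc x y z := by
    ext t
    · simp only [mul_base, mul_top, Finsupp.add_apply, shift_apply]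
      rw [← add_assoc t x.top y.top]
      exact add_assoc _ _ _
    · simp only [mul_top, add_assoc]
  one_mul x := by
    ext t
    · simp only [mul_base, one_base, one_top, Finsupp.add_apply, shift_apply, add_zero,
        Finsupp.zero_apply, zero_add]
    · simp only [mul_top, one_top, zero_add]
  mul_one x := by
    ext t
    · simp only [mul_base, one_base, Finsupp.add_apply, shift_apply,
        Finsupp.zero_apply, add_zero]
    · simp only [mul_top, one_top, add_zero]
  inv_mul_cancel x := by
    ext t
    · simp only [mul_base, inv_base, inv_top, one_base, Finsupp.add_apply, Finsupp.neg_apply,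
        shift_apply, Finsupp.zero_apply, neg_add_cancel]
    · simp only [mul_top, inv_top, one_top, neg_add_cancel]

end ZW

end Pool.Agent.Lib.MP_0f8bf3_al.General
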