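import Pool.Agent.Lib.MP_0f8bf3_al.Action
import Pool.Agent.Lib.MP_0f8bf3_al.ZW

/-!
# The action of `Z wr Z^r` on the 4-cube, for every rank `r`
-/

set_option autoImplicit false

namespace Pool.Agent.Lib.MP_0f8bf3_al.General

open Set

noncomputable section

variable {r : ℕ} (α : Fin r → ℝ)

/-- The linear form `w ↦ α · w`. -/
def lin (w : Fin r → ℤ) : ℝ := ∑ i, α i * (w i : ℝ)

theorem lin_add (v w : Fin r → ℤ) : lin α (v + w) = lin α v + lin α w := by
  unfold lin
  rw [← Finset.sum_add_distrib]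
  refine Finset.sum_congr rfl fun i _ => ?_
  simp only [Pi.add_apply]
  push_cast
  ring

theorem lin_zero : lin α 0 = 0 := by simp [lin]

theorem lin_sub (v w : Fin r → ℤ) : lin α (v - w) = lin α v - lin α w := by
  have := lin_add α (v - w) w
  rw [sub_add_cancel] at this
  linarith

/-- Total angle displacement. -/
def tot (f : (Fin r → ℤ) →₀ ℤ) (p : ℝ × ℝ) (ρ : ℝ) : ℝ :=
  f.sum fun w c => (c : ℝ) * kap (rot (-lin α w) p) ρ

theorem tot_add (f g : (Fin r → ℤ) →₀ ℤ) (p : ℝ × ℝ) (ρ : ℝ) :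
    tot α (f + g) p ρ = tot α f p ρ + tot α g p ρ := by
  unfold tot
  refine Finsupp.sum_add_index' (fun w => ?_) (fun w a b => ?_)
  · simp
  · push_cast; ring

theorem tot_shift (g : (Fin r → ℤ) →₀ ℤ) (v : Fin r → ℤ) (p : ℝ × ℝ) (ρ : ℝ) :
    tot α (ZW.shift v g) p ρ = tot α g (rot (lin α v) p) ρ := by
  have h1 : g = (ZW.shift v g).mapDomain (fun t => t + v) := by
    ext t
    have e : t = (t - v) + v := (sub_add_cancel t v).symm
    conv_rhs => rw [e]
    rw [Finsupp.mapDomain_apply (add_left_injective v), ZW.shift_apply, sub_add_cancel]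
  conv_rhs => rw [h1]
  unfold tot
  rw [Finsupp.sum_mapDomain_index (fun w => by simp) (fun w a b => by push_cast; ring)]
  refine Finsupp.sum_congr fun w _ => ?_
  rw [rot_rot, lin_add]
  congr 3
  ring

theorem tot_zero (p : ℝ × ℝ) (ρ : ℝ) : tot α 0 p ρ = 0 := by
  unfold tot
  exact Finsupp.sum_zero_index

theorem tot_single (p : ℝ × ℝ) (ρ : ℝ) (c : ℤ) :
    tot α (Finsupp.single 0 c) p ρ = c * kap p ρ := by
  unfold tot
  rw [Finsupp.sum_single_index (by simp), lin_zero, neg_zero, rot_zero]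

/-- The action on the 4-dimensional space. -/
def act (x : ZW r) (y : E4) : E4 :=
  mk4 (rot (lin α x.top) (fstP y)) (rot (tot α x.base (fstP y) ‖sndP y‖) (sndP y))

theorem norm_act (x : ZW r) (y : E4) : ‖act α x y‖ = ‖y‖ := by
  unfold act
  rw [norm_mk4, norm_rot, norm_rot, ← norm_mk4, mk4_fstP_sndP]

theorem act_act (x z : ZW r) (y : E4) : act α z (act α x y) = act α (x * z) y := by
  unfold act
  rw [fstP_mk4, sndP_mk4, norm_rot, rot_rot, rot_rot, ZW.mul_top, ZW.mul_base, lin_add, tot_add,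
    tot_shift]

theorem act_one (y : E4) : act α 1 y = y := by
  unfold act
  rw [ZW.one_base, ZW.one_top, tot_zero, lin_zero, rot_zero, rot_zero, mk4_fstP_sndP]

/-! ### Injectivity -/

variable {α}

theorem eq_one_of_act (hα : ∀ w : Fin r → ℤ, (∃ m : ℤ, lin α w = m) → w = 0) (x : ZW r)
    (hx : ∀ y : E4, ‖y‖ = 1 → act α x y = y) : x = 1 := by
  -- evaluate at the points of the torus
  have hpt : ∀ z : ℝ, gam (z + lin α x.top) = gam z ∧
      gam (0 + ∑ w ∈ x.base.support, (x.base w : ℝ) * (1 + cw (z - lin α w))) = gam 0 := by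
    intro z
    have hz : ‖mk4 (gam z) (gam 0)‖ = 1 := by
      rw [norm_mk4, norm_gam, norm_gam, max_self]
    have h2 := hx _ hz
    simp only [act, fstP_mk4, sndP_mk4, norm_gam, rot_gam] at h2
    have h3 := congrArg fstP h2
    have h4 := congrArg sndP h2
    rw [fstP_mk4, fstP_mk4] at h3
    rw [sndP_mk4, sndP_mk4] at h4
    refine ⟨h3, ?_⟩
    have h5 : tot α x.base (gam z) 1 =
        ∑ w ∈ x.base.support, (x.base w : ℝ) * (1 + cw (z - lin α w)) := by
      unfold tot Finsupp.sum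
      refine Finset.sum_congr rfl fun w _ => ?_
      beta_reduce
      rw [rot_gam, kap_gam, sub_eq_add_neg]
    rw [← h5]
    exact h4
  have hv : x.top = 0 := by
    obtain ⟨k, hk⟩ := gam_inj (hpt 0).1
    apply hα
    exact ⟨8 * k, by push_cast; linarith⟩
  set H : ℝ → ℝ := fun z => ∑ w ∈ x.base.support, (x.base w : ℝ) * (1 + cw (z - lin α w)) with hH
  have hHint : ∀ z, ∃ k : ℤ, H z = 8 * k := by
    intro z
    obtain ⟨k, hk⟩ := gam_inj (hpt z).2
    exact ⟨k, by linarith⟩
  have hf : x.base = 0 := by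
    by_contra hne
    obtain ⟨w₀, hw₀⟩ := Finsupp.ne_iff.1 hne
    simp only [Finsupp.zero_apply] at hw₀
    set y : ℝ := 1 + lin α w₀ with hy
    have hev1 : ∀ᶠ t in nhdsWithin (0 : ℝ) (Set.Ioi 0), ∀ w ∈ x.base.support, w ≠ w₀ →
        cw (y - lin α w + t) + cw (y - lin α w - t) - 2 * cw (y - lin α w) = 0 := by
      rw [Filter.eventually_all_finset]
      intro w _
      by_cases hww : w = w₀
      · filter_upwards with t h; exact absurd hww h
      · have hz : ∀ m : ℤ, y - lin α w ≠ 2 * m + 1 := by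
          intro m hm
          apply hww
          have h1 : w₀ - w = 0 := by
            apply hα
            refine ⟨2 * m, ?_⟩
            rw [lin_sub]; push_cast; linarith
          exact (sub_eq_zero.1 h1).symm
        filter_upwards [cw_locally_affine hz] with t ht _
        exact ht
    have hev2 : ∀ᶠ t in nhdsWithin (0 : ℝ) (Set.Ioi 0),
        t ≤ 2 ∧ |t * (x.base w₀ : ℝ)| < 8 := by
      have hcont : Continuous fun t : ℝ => |t * (x.base w₀ : ℝ)| := by fun_prop
      have h1 : ∀ᶠ t in nhds (0 : ℝ), |t * (x.base w₀ : ℝ)| < 8 := by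
        have := hcont.tendsto 0
        simp only [zero_mul, abs_zero] at this
        exact this.eventually (gt_mem_nhds (by norm_num))
      have h2 : ∀ᶠ t in nhds (0 : ℝ), t ≤ 2 := by
        filter_upwards [gt_mem_nhds (show (0 : ℝ) < 2 by norm_num)] with t ht
        exact ht.le
      exact (h2.and h1).filter_mono nhdsWithin_le_nhds
    obtain ⟨t, ⟨h1, h2, h3⟩, h0⟩ := ((hev1.and hev2).and self_mem_nhdsWithin).exists
    have h0' : (0 : ℝ) < t := h0
    have hdiff : H (y + t) + H (y - t) - 2 * H y = -(t * (x.base w₀ : ℝ)) := by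
      have : ∑ w ∈ x.base.support, (x.base w : ℝ) * (1 + cw (y + t - lin α w))
          + ∑ w ∈ x.base.support, (x.base w : ℝ) * (1 + cw (y - t - lin α w))
          - 2 * ∑ w ∈ x.base.support, (x.base w : ℝ) * (1 + cw (y - lin α w))
          = ∑ w ∈ x.base.support, (x.base w : ℝ) *
            (cw (y - lin α w + t) + cw (y - lin α w - t) - 2 * cw (y - lin α w)) := by
        rw [Finset.mul_sum, ← Finset.sum_add_distrib, ← Finset.sum_sub_distrib]
        refine Finset.sum_congr rfl fun w _ => ?_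
        rw [show y + t - lin α w = y - lin α w + t by ring,
          show y - t - lin α w = y - lin α w - t by ring]
        ring
      rw [hH]
      beta_reduce
      rw [this, Finset.sum_eq_single w₀]
      · have : y - lin α w₀ = 1 := by rw [hy]; ring
        rw [this, cw_break h0'.le h2]
        ring
      · intro w hw hww
        rw [h1 w hw hww, mul_zero]
      · intro hw
        exact absurd (Finsupp.mem_support_iff.2 hw₀) hw
    obtain ⟨k1, hk1⟩ := hHint (y + t)
    obtain ⟨k2, hk2⟩ := hHint (y - t)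
    obtain ⟨k3, hk3⟩ := hHint y
    rw [hk1, hk2, hk3] at hdiff
    have hk : t * (x.base w₀ : ℝ) = 8 * ((2 * k3 - k1 - k2 : ℤ) : ℝ) := by push_cast; linarith
    rw [hk, abs_mul] at h3
    have h4 : |((2 * k3 - k1 - k2 : ℤ) : ℝ)| < 1 := by
      have : |(8 : ℝ)| = 8 := by norm_num
      rw [this] at h3
      linarith
    have h5 : (2 * k3 - k1 - k2 : ℤ) = 0 := by
      rw [← Int.cast_abs] at h4
      have : |2 * k3 - k1 - k2| < 1 := by exact_mod_cast h4
      exact Int.abs_lt_one_iff.1 this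
    rw [h5] at hk
    simp only [Int.cast_zero, mul_zero, mul_eq_zero] at hk
    rcases hk with hk | hk
    · exact h0'.ne' hk
    · exact hw₀ (by exact_mod_cast hk)
  exact ZW.ext hf hv

/-! ### Piecewise linearity -/

/-- Continuous piecewise linear functions. -/
def CPL (u : E4 → ℝ) : Prop := Continuous u ∧ PL u

theorem CPL.add {u v : E4 → ℝ} (hu : CPL u) (hv : CPL v) : CPL (fun x => u x + v x) :=
  ⟨hu.1.add hv.1, hu.2.add hv.2⟩
theorem CPL.sub {u v : E4 → ℝ} (hu : CPL u) (hv : CPL v) : CPL (fun x => u x - v x) :=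
  ⟨hu.1.sub hv.1, hu.2.sub hv.2⟩
theorem CPL.neg {u : E4 → ℝ} (hu : CPL u) : CPL (fun x => - u x) :=
  ⟨hu.1.neg, hu.2.neg⟩
theorem CPL.max {u v : E4 → ℝ} (hu : CPL u) (hv : CPL v) : CPL (fun x => Max.max (u x) (v x)) :=
  ⟨hu.1.max hv.1, hu.2.maxx hv.2⟩
theorem CPL.min {u v : E4 → ℝ} (hu : CPL u) (hv : CPL v) : CPL (fun x => Min.min (u x) (v x)) :=
  ⟨hu.1.min hv.1, hu.2.minn hv.2⟩
theorem CPL.abs {u : E4 → ℝ} (hu : CPL u) : CPL (fun x => |u x|) :=
  ⟨hu.1.abs, hu.2.abs⟩
theorem CPL.const_mul {u : E4 → ℝ} (hu : CPL u) (c : ℝ) : CPL (fun x => c * u x) :=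
  ⟨continuous_const.mul hu.1, hu.2.const_mul c⟩
theorem CPL.const (c : ℝ) : CPL (fun _ => c) := ⟨continuous_const, PL.const c⟩
theorem CPL.coord (i : Fin 4) : CPL (fun x => x i) := ⟨continuous_apply i, PL.coord i⟩

theorem CPL.disp_fst {ρ σ x y : E4 → ℝ} (hρ : CPL ρ) (hσ : CPL σ) (hx : CPL x) (hy : CPL y) :
    CPL (fun z => (disp (ρ z) (σ z) (x z) (y z)).1) := by
  unfold disp
  exact (hx.sub ((hx.add hρ).min ((CPL.const 0).max ((hy.add hσ).sub hρ)))).add
    ((hρ.sub hx).min ((CPL.const 0).max ((hy.neg.add hσ).sub hρ)))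

theorem CPL.disp_snd {ρ σ x y : E4 → ℝ} (hρ : CPL ρ) (hσ : CPL σ) (hx : CPL x) (hy : CPL y) :
    CPL (fun z => (disp (ρ z) (σ z) (x z) (y z)).2) := by
  unfold disp
  exact (hy.add ((hρ.sub hy).min ((CPL.const 0).max ((hx.add hσ).sub hρ)))).sub
    ((hρ.add hy).min ((CPL.const 0).max ((hx.neg.add hσ).sub hρ)))

theorem CPL.norm_fst : CPL (fun z => ‖fstP z‖) := by
  have e : (fun z : E4 => ‖fstP z‖) = fun z => Max.max |z 0| |z 1| := by
    ext z; rw [Prod.norm_def]; rfl
  rw [e]
  exact (CPL.coord 0).abs.max (CPL.coord 1).abs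

theorem CPL.norm_snd : CPL (fun z => ‖sndP z‖) := by
  have e : (fun z : E4 => ‖sndP z‖) = fun z => Max.max |z 2| |z 3| := by
    ext z; rw [Prod.norm_def]; rfl
  rw [e]
  exact (CPL.coord 2).abs.max (CPL.coord 3).abs

/-- Norm preserving self-maps of the space which agree with a continuous piecewise linear map on
the unit ball. -/
structure Good (σ : E4 → E4) : Prop where
  norm : ∀ y, ‖σ y‖ = ‖y‖
  ex : ∃ F : E4 → E4, Continuous F ∧ PL F ∧ ∀ y : E4, ‖y‖ ≤ 1 → σ y = F y

theorem Good.comp {σ τ : E4 → E4} (hσ : Good σ) (hτ : Good τ) : Good (fun x => σ (τ x)) := by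
  refine ⟨fun y => by rw [hσ.norm, hτ.norm], ?_⟩
  obtain ⟨F, hF, hF', hF''⟩ := hσ.ex
  obtain ⟨G, hG, hG', hG''⟩ := hτ.ex
  refine ⟨fun x => F (G x), hF.comp hG, hF'.comp hG', fun x hx => ?_⟩
  rw [hF'' _ (by rw [hτ.norm]; exact hx), hG'' x hx]

theorem Good.id : Good (fun x => x) :=
  ⟨fun _ => rfl, fun x => x, continuous_id, PL.affine (AffineMap.id ℝ E4), fun _ _ => rfl⟩

theorem cpl_mk4 {a b c d : E4 → ℝ} (ha : CPL a) (hb : CPL b) (hc : CPL c) (hd : CPL d) :
    Continuous (fun z => mk4 (a z, b z) (c z, d z)) ∧ PL (fun z => mk4 (a z, b z) (c z, d z)) := by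
  constructor
  · apply continuous_pi
    intro i
    fin_cases i
    · exact ha.1
    · exact hb.1
    · exact hc.1
    · exact hd.1
  · apply PL.pi
    intro i
    fin_cases i
    · exact ha.2
    · exact hb.2
    · exact hc.2
    · exact hd.2

/-- The map rotating the first factor by `t`. -/
def rotL (t : ℝ) (x : E4) : E4 := mk4 (rot t (fstP x)) (sndP x)

/-- The map rotating the second factor by an amount depending on the point. -/
def rotR (k : E4 → ℝ) (x : E4) : E4 := mk4 (fstP x) (rot (k x) (sndP x))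

theorem norm_rotL (t : ℝ) (x : E4) : ‖rotL t x‖ = ‖x‖ := by
  unfold rotL
  rw [norm_mk4, norm_rot, ← norm_mk4, mk4_fstP_sndP]

theorem norm_rotR (k : E4 → ℝ) (x : E4) : ‖rotR k x‖ = ‖x‖ := by
  unfold rotR
  rw [norm_mk4, norm_rot, ← norm_mk4, mk4_fstP_sndP]

theorem good_rotL_small {t : ℝ} (h0 : 0 ≤ t) (h2 : t ≤ 2) : Good (rotL t) := by
  have h := cpl_mk4 (CPL.disp_fst CPL.norm_fst (CPL.norm_fst.const_mul t) (CPL.coord 0)
    (CPL.coord 1)) (CPL.disp_snd CPL.norm_fst (CPL.norm_fst.const_mul t) (CPL.coord 0)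
    (CPL.coord 1)) (CPL.coord 2) (CPL.coord 3)
  refine ⟨norm_rotL t, _, h.1, h.2, fun x _ => ?_⟩
  show mk4 (rot t (fstP x)) (sndP x) = _
  rw [rot_eq_disp h0 h2, mul_comm]
  rfl

theorem rotL_rotL (s t : ℝ) (x : E4) : rotL s (rotL t x) = rotL (t + s) x := by
  unfold rotL
  rw [fstP_mk4, sndP_mk4, rot_rot]

theorem good_rotL (t : ℝ) : Good (rotL t) := by
  obtain ⟨k, s, h0, h2, rfl⟩ : ∃ (k : ℤ) (s : ℝ), 0 ≤ s ∧ s ≤ 2 ∧ t = 4 * s + 8 * k := by
    refine ⟨⌊t / 8⌋, (t - 8 * ⌊t / 8⌋) / 4, ?_, ?_, by ring⟩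
    · have := Int.floor_le (t / 8)
      apply div_nonneg _ (by norm_num)
      linarith
    · have := Int.lt_floor_add_one (t / 8)
      rw [div_le_iff₀ (by norm_num)]
      linarith
  have h := good_rotL_small h0 h2
  have h4 := h.comp (h.comp (h.comp h))
  have e : (fun x => rotL s (rotL s (rotL s (rotL s x)))) = rotL (4 * s + 8 * k) := by
    ext x : 1
    rw [rotL_rotL, rotL_rotL, rotL_rotL]
    unfold rotL
    rw [rot_add_eight]
    congr 2
    ring
  rwa [e] at h4

theorem good_rotR {k σ : E4 → ℝ} (hσ : CPL σ)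
    (h : ∀ x : E4, ‖x‖ ≤ 1 → 0 ≤ k x ∧ k x ≤ 2 ∧ ‖sndP x‖ * k x = σ x) : Good (rotR k) := by
  have h' := cpl_mk4 (CPL.coord 0) (CPL.coord 1)
    (CPL.disp_fst CPL.norm_snd hσ (CPL.coord 2) (CPL.coord 3))
    (CPL.disp_snd CPL.norm_snd hσ (CPL.coord 2) (CPL.coord 3))
  refine ⟨norm_rotR k, _, h'.1, h'.2, fun x hx => ?_⟩
  obtain ⟨h0, h2, he⟩ := h x hx
  show mk4 (fstP x) (rot (k x) (sndP x)) = _
  rw [rot_eq_disp h0 h2, he]
  rfl

theorem good_rotR_const {t : ℝ} (h0 : 0 ≤ t) (h2 : t ≤ 2) : Good (rotR fun _ => t) :=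
  good_rotR (CPL.norm_snd.const_mul t) fun _ _ => ⟨h0, h2, mul_comm _ _⟩

theorem fst_ge (x : E4) (hx : ‖x‖ ≤ 1) : 0 ≤ 1 + (fstP x).1 := by
  have h2 := (norm_le_pi_norm x 0).trans hx
  rw [Real.norm_eq_abs, abs_le] at h2
  have : (fstP x).1 = x 0 := rfl
  rw [this]
  linarith [h2.1]

theorem kap_bounds {p : ℝ × ℝ} {ρ : ℝ} (hρ : 0 ≤ ρ) (hp : 0 ≤ 1 + p.1) :
    0 ≤ kap p ρ ∧ kap p ρ ≤ 2 ∧ ρ * kap p ρ = min (2 * ρ) (1 + p.1) := by
  unfold kap
  rcases eq_or_lt_of_le hρ with rfl | h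
  · simp [hp]
  · refine ⟨div_nonneg (le_min (by positivity) hp) hρ, ?_, ?_⟩
    · rw [div_le_iff₀ h]
      exact min_le_left _ _
    · field_simp

/-- The displacement function of the basic shear. -/
def kfun (x : E4) : ℝ := kap (fstP x) ‖sndP x‖

theorem cpl_h : CPL (fun x => min (2 * ‖sndP x‖) (1 + (fstP x).1)) := by
  have h1 : CPL (fun x => (fstP x).1) := CPL.coord 0
  exact (CPL.norm_snd.const_mul 2).min ((CPL.const 1).add h1)

theorem good_shear : Good (rotR kfun) :=
  good_rotR cpl_h fun x hx => kap_bounds (norm_nonneg _) (fst_ge x hx)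

theorem good_shear' : Good (rotR fun x => 2 - kfun x) := by
  refine good_rotR ((CPL.norm_snd.const_mul 2).sub cpl_h) fun x hx => ?_
  obtain ⟨h0, h2, he⟩ := kap_bounds (norm_nonneg (sndP x)) (fst_ge x hx)
  refine ⟨by unfold kfun; linarith, by unfold kfun; linarith, ?_⟩
  rw [mul_sub]
  unfold kfun
  rw [he]
  ring

theorem good_shear_inv : Good (rotR fun x => - kfun x) := by
  have h2 := good_rotR_const (t := 2) (by norm_num) le_rfl
  have h := h2.comp (h2.comp (h2.comp good_shear'))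
  have e : (fun x => rotR (fun _ => 2) (rotR (fun _ => 2) (rotR (fun _ => 2)
      (rotR (fun x => 2 - kfun x) x)))) = rotR fun x => - kfun x := by
    ext x : 1
    simp only [rotR, fstP_mk4, sndP_mk4, rot_rot]
    congr 1
    have : 2 - kfun x + 2 + 2 + 2 = - kfun x + 8 * ((1 : ℤ) : ℝ) := by push_cast; ring
    rw [this, rot_add_eight]
  rwa [e] at h

theorem good_mul {x z : ZW r} (hx : Good (act α x)) (hz : Good (act α z)) :
    Good (act α (x * z)) := by
  have h := hz.comp hx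
  have e : (fun y => act α z (act α x y)) = act α (x * z) := funext fun y => act_act α x z y
  rwa [e] at h

theorem good_top (v : Fin r → ℤ) : Good (act α ⟨0, v⟩) := by
  have e : act α ⟨0, v⟩ = rotL (lin α v) := by
    funext y
    unfold act rotL
    rw [tot_zero, rot_zero]
  rw [e]
  exact good_rotL _

theorem good_gen : Good (act α (⟨Finsupp.single 0 1, 0⟩ : ZW r)) := by
  have e : act α (⟨Finsupp.single 0 1, 0⟩ : ZW r) = rotR kfun := by
    funext y
    unfold act rotR kfun
    rw [lin_zero, rot_zero, tot_single, Int.cast_one, one_mul]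
  rw [e]
  exact good_shear

theorem good_gen' : Good (act α (⟨Finsupp.single 0 (-1), 0⟩ : ZW r)) := by
  have e : act α (⟨Finsupp.single 0 (-1), 0⟩ : ZW r) = rotR fun y => - kfun y := by
    funext y
    unfold act rotR kfun
    rw [lin_zero, rot_zero, tot_single, Int.cast_neg, Int.cast_one, neg_one_mul]
  rw [e]
  exact good_shear_inv

theorem mul_zero_top (a b : (Fin r → ℤ) →₀ ℤ) (v : Fin r → ℤ) :
    (⟨a, 0⟩ : ZW r) * ⟨b, v⟩ = ⟨a + b, v⟩ := by
  ext t
  · simp only [ZW.mul_base, Finsupp.add_apply, ZW.shift_apply, add_zero]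
  · simp only [ZW.mul_top, zero_add]

theorem good_zero_single (c : ℤ) : Good (act α (⟨Finsupp.single 0 c, 0⟩ : ZW r)) := by
  have h0 : Good (act α (⟨Finsupp.single 0 0, 0⟩ : ZW r)) := by
    rw [Finsupp.single_zero]
    exact good_top 0
  induction c using Int.induction_on with
  | zero => exact h0
  | succ n ih =>
    rw [Finsupp.single_add, ← mul_zero_top]
    exact good_mul ih good_gen
  | pred n ih =>
    rw [sub_eq_add_neg, Finsupp.single_add, ← mul_zero_top]
    exact good_mul ih good_gen'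

theorem conj_single (w : Fin r → ℤ) (c : ℤ) :
    (⟨0, -w⟩ : ZW r) * ⟨Finsupp.single 0 c, 0⟩ * ⟨0, w⟩ = ⟨Finsupp.single w c, 0⟩ := by
  ext t
  · simp only [ZW.mul_base, Finsupp.add_apply, ZW.shift_apply, Finsupp.zero_apply, zero_add,
      add_zero]
    rw [Finsupp.single_apply, Finsupp.single_apply]
    by_cases h : w = t
    · subst h; simp
    · rw [if_neg h, if_neg]
      intro h'
      apply h
      rw [← sub_eq_add_neg] at h'
      exact (sub_eq_zero.1 h'.symm).symm
  · simp [ZW.mul_top]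

theorem good_single (w : Fin r → ℤ) (c : ℤ) : Good (act α (⟨Finsupp.single w c, 0⟩ : ZW r)) := by
  rw [← conj_single]
  exact good_mul (good_mul (good_top _) (good_zero_single c)) (good_top _)

/-- All elements of the wreath product act on the unit ball by piecewise linear maps. -/
theorem good_act (x : ZW r) : Good (act α x) := by
  obtain ⟨f, v⟩ := x
  induction f using Finsupp.induction with
  | zero => exact good_top v
  | single_add w c f _ _ ih =>
    rw [← mul_zero_top]
    exact good_mul (good_single w c) ih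

/-- Existence of parameters without integral relations. -/
theorem exists_params (r : ℕ) :
    ∃ α : Fin r → ℝ, ∀ w : Fin r → ℤ, (∃ m : ℤ, lin α w = m) → w = 0 := by
  have htr : Transcendental ℤ (liouvilleNumber ((2 : ℕ) : ℝ)) := transcendental_liouvilleNumber le_rfl
  set τ := liouvilleNumber ((2 : ℕ) : ℝ) with hτ
  refine ⟨fun i => τ ^ ((i : ℕ) + 1), fun w ⟨m, hm⟩ => ?_⟩
  by_contra hne
  apply htr
  obtain ⟨i, hi⟩ := Function.ne_iff.1 hne
  simp only [Pi.zero_apply] at hi
  let P : Polynomial ℤ := (∑ j : Fin r, Polynomial.C (w j) * Polynomial.X ^ ((j : ℕ) + 1))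
    - Polynomial.C m
  refine ⟨P, ?_, ?_⟩
  · intro h0
    have hc : P.coeff ((i : ℕ) + 1) = w i := by
      simp only [P, Polynomial.coeff_sub, Polynomial.coeff_C, Polynomial.finsetSum_coeff,
        Polynomial.coeff_C_mul, Polynomial.coeff_X_pow]
      rw [Finset.sum_eq_single i]
      · simp
      · intro j _ hj
        have hij : ¬ ((i : ℕ) + 1 = (j : ℕ) + 1) := by
          intro h
          apply hj
          exact Fin.ext (by omega)
        rw [if_neg hij, mul_zero]
      · intro h; exact absurd (Finset.mem_univ i) h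
    rw [h0, Polynomial.coeff_zero] at hc
    exact hi hc.symm
  · simp only [P, map_sub, map_sum, map_mul, map_pow, Polynomial.aeval_X]
    have hm' : ∑ j : Fin r, τ ^ ((j : ℕ) + 1) * (w j : ℝ) = m := hm
    have h1 : ∀ z : ℤ, (Polynomial.aeval τ) (Polynomial.C z) = (z : ℝ) := by
      intro z
      rw [Polynomial.aeval_C]
      simp
    simp only [h1]
    rw [← hm']
    rw [sub_eq_zero]
    exact Finset.sum_congr rfl fun j _ => mul_comm _ _

end

end Pool.Agent.Lib.MP_0f8bf3_al.General
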